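import Pool.Agent.Steiner.Main
import Pool.Agent.Steiner.Cover

/-!
# Points in a `√3` by `n - 1` rectangle with long Steiner trees

`St A` is the infimum of the length of the compact connected sets containing `A`, `M n` the supremum
of `St A` over the sets `A` of `n` points in the rectangle `R n = [0, n - 1] × [0, √3]`.

For every `n ≥ 2` the ladder, the points `(0, 0), (0, √3), (2, 0), (2, √3), (4, 0), …`, is a set of
`n` points of `R n`, and every connected set which contains it has length at least `7 n / 4 - 7`. So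
`M n ≥ 7 n / 4 - 7` and the difference of `M n` and `√3 (n - 1)` tends to infinity.
-/

set_option autoImplicit false

open MeasureTheory Filter Set

namespace Pool.Agent.Results.MP_7de4e5_co.LinearGap

/-- The plane. -/
abbrev Plane := EuclideanSpace ℝ (Fin 2)

/-- `St A`: the infimum of the one-dimensional Hausdorff measure over all compact connected sets
which contain `A`. -/
noncomputable def St (A : Set Plane) : ENNReal :=
  ⨅ (K : Set Plane) (_ : IsCompact K) (_ : IsConnected K) (_ : A ⊆ K), μH[1] K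

/-- The rectangle `[0, n - 1] × [0, √3]`. -/
def R (n : ℕ) : Set Plane :=
  {x | 0 ≤ x 0 ∧ x 0 ≤ (n : ℝ) - 1 ∧ 0 ≤ x 1 ∧ x 1 ≤ Real.sqrt 3}

/-- `M n`: the supremum of `St A` over all sets `A ⊆ R n` with exactly `n` elements. -/
noncomputable def M (n : ℕ) : ENNReal :=
  ⨆ (A : Finset Plane) (_ : (A : Set Plane) ⊆ R n) (_ : A.card = n), St A

/-- The `k`-th point of the ladder. -/
noncomputable def pt (k : ℕ) : Plane :=
  !₂[2 * ((k / 2 : ℕ) : ℝ), if k % 2 = 0 then 0 else Real.sqrt 3]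

/-- The first `n` points of the ladder `(0, 0), (0, √3), (2, 0), (2, √3), (4, 0), …`. -/
noncomputable def ladder (n : ℕ) : Finset Plane := by
  classical exact (Finset.range n).image pt

@[simp] theorem pt0 (k : ℕ) : pt k 0 = 2 * ((k / 2 : ℕ) : ℝ) := by simp [pt]

@[simp] theorem pt1 (k : ℕ) : pt k 1 = if k % 2 = 0 then 0 else Real.sqrt 3 := by simp [pt]

theorem sqrt3_pos : 0 < Real.sqrt 3 := Real.sqrt_pos.mpr (by norm_num)

theorem pt_injective : Function.Injective pt := by
  intro a b h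
  have h0 : pt a 0 = pt b 0 := by rw [h]
  have h1 : pt a 1 = pt b 1 := by rw [h]
  rw [pt0, pt0] at h0
  rw [pt1, pt1] at h1
  have h2 : ((a / 2 : ℕ) : ℝ) = ((b / 2 : ℕ) : ℝ) := by linarith
  have h3 : a / 2 = b / 2 := by exact_mod_cast h2
  have h4 : a % 2 = b % 2 := by
    rcases Nat.mod_two_eq_zero_or_one a with ha | ha <;>
      rcases Nat.mod_two_eq_zero_or_one b with hb | hb
    · rw [ha, hb]
    · rw [ha, hb] at h1
      simp only [if_true, one_ne_zero, if_false] at h1
      exact absurd h1.symm sqrt3_pos.ne'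
    · rw [ha, hb] at h1
      simp only [if_true, one_ne_zero, if_false] at h1
      exact absurd h1 sqrt3_pos.ne'
    · rw [ha, hb]
  omega

theorem mem_ladder {n : ℕ} {x : Plane} : x ∈ ladder n ↔ ∃ k < n, pt k = x := by
  classical
  simp [ladder]

theorem ladder_card (n : ℕ) : (ladder n).card = n := by
  classical
  rw [ladder, Finset.card_image_of_injective _ pt_injective, Finset.card_range]

theorem ladder_subset (n : ℕ) : (ladder n : Set Plane) ⊆ R n := by
  intro x hx
  obtain ⟨k, hk, rfl⟩ := mem_ladder.mp hx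
  have h1 : 2 * (k / 2) + 1 ≤ n := by omega
  have h2 : 2 * ((k / 2 : ℕ) : ℝ) + 1 ≤ n := by exact_mod_cast h1
  refine ⟨?_, ?_, ?_, ?_⟩
  · rw [pt0]; positivity
  · rw [pt0]; linarith
  · rw [pt1]; split_ifs
    · exact le_rfl
    · exact sqrt3_pos.le
  · rw [pt1]; split_ifs
    · exact sqrt3_pos.le
    · exact le_rfl

/-- The reflection which exchanges the coordinates. -/
noncomputable def swap : Plane ≃ₗᵢ[ℝ] Plane :=
  LinearIsometryEquiv.piLpCongrLeft 2 ℝ ℝ (Equiv.swap (0 : Fin 2) 1)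

theorem swap0 (x : Plane) : swap x 0 = x 1 := by
  simp [swap, LinearIsometryEquiv.piLpCongrLeft_apply]

theorem swap1 (x : Plane) : swap x 1 = x 0 := by
  simp [swap, LinearIsometryEquiv.piLpCongrLeft_apply]

open Pool.Agent.Steiner in
/-- Every connected set through the first `n` points of the ladder is long. -/
theorem ladder_long {n : ℕ} (hn : 2 ≤ n) {K : Set Plane} (hK : IsConnected K)
    (hA : (ladder n : Set Plane) ⊆ K) :
    ENNReal.ofReal (7 / 4 * (n : ℝ) - 7) ≤ μH[1] K := by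
  by_contra hcon
  push Not at hcon
  set κ : ℝ := 7 / 4 * (n : ℝ) - 7 with hκ
  have hκpos : 0 < κ := by
    by_contra h
    rw [ENNReal.ofReal_eq_zero.mpr (not_lt.mp h)] at hcon
    exact absurd hcon (not_lt.mpr bot_le)
  set m := n / 2 with hm
  have hm1 : 1 ≤ m := by omega
  have hmn : (n : ℝ) ≤ 2 * m + 1 := by
    have : n ≤ 2 * m + 1 := by omega
    exact_mod_cast this
  -- reduce to a slightly smaller bound
  have hfin : μH[1] K ≠ ⊤ := (lt_of_lt_of_le hcon le_top).ne
  set κ' : ℝ := (μH[1] K).toReal with hκ'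
  have hκ'lt : κ' < κ := by
    rw [← ENNReal.toReal_ofReal hκpos.le]
    exact ENNReal.toReal_strict_mono ENNReal.ofReal_ne_top hcon
  set S : Set Plane := swap '' K with hS
  have hSc : IsConnected S := hK.image _ swap.continuous.continuousOn
  have hH : Measure.hausdorffMeasure 1 S ≤ ENNReal.ofReal κ' := by
    rw [hS, hκ', ENNReal.ofReal_toReal hfin]
    exact le_of_eq (swap.isometry.hausdorffMeasure_image (Or.inl zero_le_one) K)
  have hU : ∀ i < m, Uj i ∈ S := by
    intro i hi
    refine ⟨pt (2 * i + 1), hA (mem_ladder.mpr ⟨2 * i + 1, by omega, rfl⟩), ?_⟩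
    have e1 : (2 * i + 1) / 2 = i := by omega
    have e2 : (2 * i + 1) % 2 = 1 := by omega
    ext j
    fin_cases j
    · show swap (pt (2 * i + 1)) 0 = Uj i 0
      rw [swap0, pt1, Uj0, e2, if_neg one_ne_zero]
    · show swap (pt (2 * i + 1)) 1 = Uj i 1
      rw [swap1, pt0, Uj1, e1]
  have hD : ∀ i < m, Dj i ∈ S := by
    intro i hi
    refine ⟨pt (2 * i), hA (mem_ladder.mpr ⟨2 * i, by omega, rfl⟩), ?_⟩
    have e1 : (2 * i) / 2 = i := by omega
    have e2 : (2 * i) % 2 = 0 := by omega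
    ext j
    fin_cases j
    · show swap (pt (2 * i)) 0 = Dj i 0
      rw [swap0, pt1, Dj0, e2, if_pos rfl]
    · show swap (pt (2 * i)) 1 = Dj i 1
      rw [swap1, pt0, Dj1, e1]
  obtain ⟨E, hE, hconn⟩ := exists_list hSc.isPreconnected ENNReal.toReal_nonneg hH
    (hU (m - 1) (by omega))
    ((List.range m).map Uj ++ (List.range m).map Dj) (by
      intro p hp
      rcases List.mem_append.mp hp with hp | hp
      · obtain ⟨i, hi, rfl⟩ := List.mem_map.mp hp
        exact hU i (List.mem_range.mp hi)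
      · obtain ⟨i, hi, rfl⟩ := List.mem_map.mp hp
        exact hD i (List.mem_range.mp hi))
  have hm2 : ((m - 1 : ℕ) : ℝ) = (m : ℝ) - 1 := by
    rw [Nat.cast_sub hm1]; simp
  have hmain := main_bound m hm1 E (Uj (m - 1)) (by
    intro i hi
    exact ⟨hconn _ (List.mem_append_left _ (List.mem_map.mpr ⟨i, List.mem_range.mpr hi, rfl⟩)),
      hconn _ (List.mem_append_right _ (List.mem_map.mpr ⟨i, List.mem_range.mpr hi, rfl⟩))⟩)
    (by rw [Uj1, hm2])
  rw [Uj1, hm2] at hmain
  linarith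

theorem St_ladder {n : ℕ} (hn : 2 ≤ n) :
    ENNReal.ofReal (7 / 4 * (n : ℝ) - 7) ≤ St (ladder n) := by
  refine le_iInf fun K => le_iInf fun _ => le_iInf fun hK => le_iInf fun hA => ?_
  exact ladder_long hn hK hA

theorem M_ge {n : ℕ} (hn : 2 ≤ n) : ENNReal.ofReal (7 / 4 * (n : ℝ) - 7) ≤ M n :=
  (St_ladder hn).trans
    (le_iSup₂_of_le (ladder n) (ladder_subset n) (le_iSup_of_le (ladder_card n) le_rfl))

theorem dist_le {n : ℕ} {x : Plane} (hx : x ∈ R n) : dist 0 x ≤ (n : ℝ) + 2 := by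
  obtain ⟨h1, h2, h3, h4⟩ := hx
  have hs : Real.sqrt 3 ≤ 2 := by
    rw [Real.sqrt_le_left (by norm_num)]
    norm_num
  rw [dist_comm, dist_zero_right, EuclideanSpace.norm_eq]
  rw [Real.sqrt_le_left (by positivity)]
  rw [Fin.sum_univ_two, Real.norm_eq_abs, Real.norm_eq_abs, sq_abs, sq_abs]
  nlinarith

theorem St_le {n : ℕ} {A : Finset Plane} (hA : (A : Set Plane) ⊆ R n) :
    St A ≤ (A.card : ENNReal) * ENNReal.ofReal ((n : ℝ) + 2) := by
  classical
  set K : Set Plane := {0} ∪ ⋃ a ∈ A, segment ℝ 0 a with hKdef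
  have hK0 : (0 : Plane) ∈ K := Or.inl rfl
  have hKc : IsCompact K := by
    refine isCompact_singleton.union (A.finite_toSet.isCompact_biUnion fun a _ => ?_)
    rw [segment_eq_image]
    exact isCompact_Icc.image (by fun_prop)
  have hKconn : IsConnected K := by
    refine ⟨⟨0, hK0⟩, isPreconnected_of_forall 0 fun y hy => ?_⟩
    rcases hy with hy | hy
    · have hy' : y = 0 := hy
      subst hy'
      exact ⟨{0}, singleton_subset_iff.mpr hK0, rfl, rfl, isPreconnected_singleton⟩
    · obtain ⟨a, ha, hya⟩ := mem_iUnion₂.mp hy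
      exact ⟨segment ℝ 0 a, fun z hz => Or.inr (mem_biUnion ha hz), left_mem_segment ℝ 0 a, hya,
        (convex_segment 0 a).isPreconnected⟩
  have hAK : (A : Set Plane) ⊆ K := fun a ha =>
    Or.inr (mem_biUnion ha (right_mem_segment ℝ 0 a))
  have hSt : St A ≤ μH[1] K := by
    unfold St
    exact iInf_le_of_le K (iInf_le_of_le hKc (iInf_le_of_le hKconn (iInf_le_of_le hAK le_rfl)))
  refine hSt.trans ?_
  have hsing : μH[1] ({0} : Set Plane) = 0 := by
    have := Measure.nullSingletonClass_hausdorff Plane (d := 1) one_pos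
    exact measure_singleton 0
  calc μH[1] K ≤ μH[1] ({0} : Set Plane) + μH[1] (⋃ a ∈ A, segment ℝ (0 : Plane) a) :=
        measure_union_le _ _
    _ ≤ 0 + ∑ a ∈ A, μH[1] (segment ℝ (0 : Plane) a) := by
        rw [hsing]
        exact add_le_add_right (measure_biUnion_finset_le _ _) _
    _ ≤ ∑ _a ∈ A, ENNReal.ofReal ((n : ℝ) + 2) := by
        rw [zero_add]
        refine Finset.sum_le_sum fun a ha => ?_
        rw [hausdorffMeasure_segment, edist_dist]
        exact ENNReal.ofReal_le_ofReal (dist_le (hA ha))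
    _ = (A.card : ENNReal) * ENNReal.ofReal ((n : ℝ) + 2) := by
        rw [Finset.sum_const, nsmul_eq_mul]

theorem M_ne_top (n : ℕ) : M n ≠ ⊤ := by
  have h : M n ≤ (n : ENNReal) * ENNReal.ofReal ((n : ℝ) + 2) := by
    refine iSup_le fun A => iSup_le fun hA => iSup_le fun hc => ?_
    have := St_le hA
    rwa [hc] at this
  refine (lt_of_le_of_lt h ?_).ne
  exact ENNReal.mul_lt_top (ENNReal.natCast_lt_top n) ENNReal.ofReal_lt_top

theorem M_toReal {n : ℕ} (hn : 2 ≤ n) : 7 / 4 * (n : ℝ) - 7 ≤ (M n).toReal := by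
  have h := (ENNReal.toReal_le_toReal ENNReal.ofReal_ne_top (M_ne_top n)).mpr (M_ge hn)
  refine le_trans ?_ h
  rw [ENNReal.toReal_ofReal']
  exact le_max_left _ _

theorem sqrt3_lt : Real.sqrt 3 < 1.7321 := by
  rw [Real.sqrt_lt' (by norm_num)]
  norm_num

/-- **The answer to Q1 is no, with a linear gap.** -/
theorem result :
    (∀ n : ℕ, 2 ≤ n → M n ≠ ⊤ ∧ 7 / 4 * (n : ℝ) - 7 ≤ (M n).toReal) ∧
    Tendsto (fun n : ℕ => (M n).toReal - Real.sqrt 3 * ((n : ℝ) - 1)) atTop atTop ∧
    (∀ n : ℕ, 2 ≤ n → (ladder n : Set Plane) ⊆ R n ∧ (ladder n).card = n ∧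
      ∀ K : Set Plane, IsConnected K → (ladder n : Set Plane) ⊆ K →
        ENNReal.ofReal (7 / 4 * (n : ℝ) - 7) ≤ μH[1] K) := by
  refine ⟨fun n hn => ⟨M_ne_top n, M_toReal hn⟩, ?_,
    fun n hn => ⟨ladder_subset n, ladder_card n, fun K hK hA => ladder_long hn hK hA⟩⟩
  have h1 : Tendsto (fun n : ℕ => (0.0179 : ℝ) * (n : ℝ) + (-7)) atTop atTop :=
    tendsto_atTop_add_const_right _ _
      (tendsto_natCast_atTop_atTop.const_mul_atTop (by norm_num))
  refine tendsto_atTop_mono' _ ?_ h1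
  filter_upwards [eventually_ge_atTop 2] with n hn
  have h2 := M_toReal hn
  have h3 := sqrt3_lt
  have h4 : (2 : ℝ) ≤ n := by exact_mod_cast hn
  have h5 := sqrt3_pos
  nlinarith

end Pool.Agent.Results.MP_7de4e5_co.LinearGap
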